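import Pool.Agent.H820.F3.Stm
import Pool.Graph.R_pool_sql_team_seeded_47a924f7.T6.H65.SG.Gauge

set_option autoImplicit false

/-!
# F3 HCUT: cut-off function with compact support for a surface group
-/

namespace Pool.Agent.H415.F3

open UpperHalfPlane Filter Topology
open Pool.Agent.T6.H65
open scoped MatrixGroups Pointwise ContDiff

/-- a cut-off function with compact support in the upper half-plane -/
theorem cutoffc {Γ : Subgroup SL(2, ℝ)} (hΓ : SG.IsSurfaceGroup Γ) :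
    ∃ χ : ℂ → ℝ, ContDiff ℝ ∞ χ ∧ HasCompactSupport χ ∧ tsupport χ ⊆ SG.Up ∧ (∀ z, 0 ≤ χ z) ∧
      (∀ z : ℍ, ∃ g : Γ, 0 < χ ((g : SL(2, ℝ)) • z : ℍ)) ∧
      ∀ z ∈ SG.Up, ∃ N ∈ 𝓝 z, N ⊆ SG.Up ∧ ∃ S : Finset Γ, ∀ w ∈ N, ∀ g ∉ S,
        χ (SG.mb (g : SL(2, ℝ)) w) = 0 := by
  obtain ⟨K, hK, hc⟩ := hΓ.cocompact
  obtain ⟨r, hr⟩ := hK.isBounded.subset_ball UpperHalfPlane.I
  have hU : IsOpen ((fun z : ℍ => (z : ℂ)) '' Metric.ball UpperHalfPlane.I r) :=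
    isOpenEmbedding_coe.isOpenMap _ Metric.isOpen_ball
  obtain ⟨χ, h1, h2, h3⟩ := hU.exists_contDiff_support_eq
  have h0 : ∀ z, 0 ≤ χ z := fun z => (h3 ⟨z, rfl⟩).1
  have hcl : IsCompact ((fun z : ℍ => (z : ℂ)) '' Metric.closedBall UpperHalfPlane.I r) :=
    (isCompact_closedBall _ _).image UpperHalfPlane.continuous_coe
  have hsub : tsupport χ ⊆ (fun z : ℍ => (z : ℂ)) '' Metric.closedBall UpperHalfPlane.I r := by
    refine closure_minimal ?_ hcl.isClosed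
    rw [h1]
    exact Set.image_mono Metric.ball_subset_closedBall
  refine ⟨χ, h2, hcl.of_isClosed_subset (isClosed_tsupport χ) hsub, ?_, h0, fun z => ?_,
    fun z hz => ?_⟩
  · intro z hz
    obtain ⟨w, -, rfl⟩ := hsub hz
    exact w.im_pos
  · obtain ⟨g, hg, hgz⟩ := hc z
    refine ⟨⟨g, hg⟩, ?_⟩
    have h4 : ((g • z : ℍ) : ℂ) ∈ Function.support χ := by
      rw [h1]
      exact ⟨g • z, hr hgz, rfl⟩
    exact lt_of_le_of_ne (h0 _) (Ne.symm h4)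
  · let z0 : ℍ := ⟨z, hz⟩
    have hN : IsOpen ((fun z : ℍ => (z : ℂ)) '' Metric.ball z0 1) :=
      isOpenEmbedding_coe.isOpenMap _ Metric.isOpen_ball
    obtain ⟨ρ, hρ⟩ : ∃ ρ, ρ = |r| + dist z0 UpperHalfPlane.I + 1 := ⟨_, rfl⟩
    have hfin := hΓ.proper (Metric.closedBall UpperHalfPlane.I ρ) (isCompact_closedBall _ _)
    refine ⟨(fun z : ℍ => (z : ℂ)) '' Metric.ball z0 1, hN.mem_nhds ⟨z0,
      Metric.mem_ball_self one_pos, rfl⟩, ?_, ?_⟩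
    · rintro _ ⟨w, -, rfl⟩
      exact w.im_pos
    · have hfin' : {g : Γ | (((g : SL(2, ℝ)) • Metric.closedBall UpperHalfPlane.I ρ) ∩
          Metric.closedBall UpperHalfPlane.I ρ).Nonempty}.Finite := by
        refine Set.Finite.of_finite_image (f := fun g : Γ => (g : SL(2, ℝ))) ?_
          (Subtype.val_injective.injOn)
        refine hfin.subset ?_
        rintro _ ⟨g, hg, rfl⟩
        exact ⟨g.2, hg⟩
      refine ⟨hfin'.toFinset, ?_⟩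
      rintro _ ⟨w, hw, rfl⟩ g hg
      by_contra hne
      apply hg
      rw [Set.Finite.mem_toFinset]
      have h4 : SG.mb (g : SL(2, ℝ)) (w : ℂ) ∈ Function.support χ := hne
      rw [h1] at h4
      obtain ⟨w', hw', hww'⟩ := h4
      have hww : w' = (g : SL(2, ℝ)) • w := by
        apply UpperHalfPlane.ext
        rw [← SG.mb_coe]
        exact hww'
      refine ⟨(g : SL(2, ℝ)) • w, Set.smul_mem_smul_set ?_, ?_⟩
      · rw [Metric.mem_closedBall, hρ]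
        have h5 : dist w z0 < 1 := hw
        have h6 := dist_triangle w z0 UpperHalfPlane.I
        have h7 : 0 ≤ |r| := abs_nonneg r
        linarith
      · rw [Metric.mem_closedBall, hρ, ← hww]
        have h5 : dist w' UpperHalfPlane.I < r := hw'
        have h6 : r ≤ |r| := le_abs_self r
        have h7 : 0 ≤ dist z0 UpperHalfPlane.I := dist_nonneg
        linarith

theorem t_hcut : Pool.Agent.H820.F3.S_hcut := by
  intro Γ hΓ
  have hΓ' : SG.IsSurfaceGroup Γ := ⟨hΓ.free, hΓ.proper, hΓ.cocompact⟩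
  have hmr : ∀ g : SL(2, ℝ), ContDiffOn ℝ ∞ (SG.mb g) SG.Up := fun g =>
    (SG.mb_smooth g).restrict_scalars ℝ
  obtain ⟨χ, hχ, hχc, hχU, hχ0, hχpos, hfin⟩ := cutoffc hΓ'
  obtain ⟨s, hs⟩ : ∃ s : ℂ → ℝ, s = fun z => ∑' g : Γ, χ (SG.mb (g : SL(2, ℝ)) z) := ⟨_, rfl⟩
  have hχs : ∀ g : Γ, ContDiffOn ℝ ∞ (fun z => χ (SG.mb (g : SL(2, ℝ)) z)) SG.Up := fun g =>
    hχ.comp_contDiffOn (hmr _)
  have hss : ContDiffOn ℝ ∞ s SG.Up := by
    rw [hs]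
    refine SG.locfin hχs fun z hz => ?_
    obtain ⟨N, hN, -, S, hS⟩ := hfin z hz
    exact ⟨N, hN, S, fun w hw g hg => hS w hw g hg⟩
  have hsumχ : ∀ z ∈ SG.Up, Summable fun g : Γ => χ (SG.mb (g : SL(2, ℝ)) z) := by
    intro z hz
    obtain ⟨N, hN, -, S, hS⟩ := hfin z hz
    exact summable_of_ne_finset_zero (s := S) fun g hg => hS z (mem_of_mem_nhds hN) g hg
  have hspos : ∀ z ∈ SG.Up, 0 < s z := by
    intro z hz
    obtain ⟨g, hg⟩ := hχpos ⟨z, hz⟩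
    have h1 : 0 < χ (SG.mb (g : SL(2, ℝ)) z) := by
      have h2 : SG.mb (g : SL(2, ℝ)) z = (((g : SL(2, ℝ)) • (⟨z, hz⟩ : ℍ) : ℍ) : ℂ) :=
        SG.mb_coe _ ⟨z, hz⟩
      rw [h2]
      exact hg
    rw [hs]
    exact (hsumχ z hz).tsum_pos (fun g => hχ0 _) g h1
  have hsinv : ∀ h : Γ, ∀ z ∈ SG.Up, s (SG.mb (h : SL(2, ℝ)) z) = s z := by
    intro h z hz
    rw [hs]
    change ∑' g : Γ, χ (SG.mb (g : SL(2, ℝ)) (SG.mb (h : SL(2, ℝ)) z)) =
      ∑' g : Γ, χ (SG.mb (g : SL(2, ℝ)) z)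
    rw [← (Equiv.mulRight h).tsum_eq (fun g : Γ => χ (SG.mb (g : SL(2, ℝ)) z))]
    refine tsum_congr fun g => ?_
    rw [Equiv.coe_mulRight, Subgroup.coe_mul, SG.mb_mul _ _ hz]
  obtain ⟨ρ, hρ⟩ : ∃ ρ : ℂ → ℝ, ρ = fun z => χ z * (s z)⁻¹ := ⟨_, rfl⟩
  have hts : tsupport ρ ⊆ tsupport χ := by
    rw [hρ]
    exact tsupport_mul_subset_left
  have hρs : ContDiff ℝ ∞ ρ := by
    rw [contDiff_iff_contDiffAt]
    intro z
    by_cases hz : z ∈ tsupport ρ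
    · have hzU : z ∈ SG.Up := hχU (hts hz)
      rw [hρ]
      exact hχ.contDiffAt.mul
        ((hss.contDiffAt (SG.isOpen_Up.mem_nhds hzU)).inv (hspos z hzU).ne')
    · rw [notMem_tsupport_iff_eventuallyEq] at hz
      exact contDiffAt_const.congr_of_eventuallyEq hz
  refine ⟨ρ, hρs, hχc.of_isClosed_subset (isClosed_tsupport ρ) hts, hts.trans hχU, ?_⟩
  have hact : ∀ (g : Γ) (z : ℂ), (Pool.Agent.H820.F3.hyp Γ).act g z =
      SG.mb (g : SL(2, ℝ)) z := fun g z => rfl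
  refine ⟨fun g => ?_, fun z hz => ?_, fun z hz => ?_, fun g h z hz => ?_⟩
  · exact hρs.comp_contDiffOn (hmr _)
  · obtain ⟨N, hN, -, S, hS⟩ := hfin z hz
    have h1 : ∀ w ∈ N, ∀ g : Γ, g ∉ S → ρ (SG.mb (g : SL(2, ℝ)) w) = 0 := by
      intro w hw g hg
      rw [hρ]
      show χ (SG.mb (g : SL(2, ℝ)) w) * (s (SG.mb (g : SL(2, ℝ)) w))⁻¹ = 0
      rw [hS w hw g hg, zero_mul]
    exact ⟨N, hN, S, h1⟩
  · show ∑' g : Γ, ρ (SG.mb (g : SL(2, ℝ)) z) = 1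
    have h1 : ∀ g : Γ, ρ (SG.mb (g : SL(2, ℝ)) z) = χ (SG.mb (g : SL(2, ℝ)) z) * (s z)⁻¹ := by
      intro g
      rw [hρ]
      show χ (SG.mb (g : SL(2, ℝ)) z) * (s (SG.mb (g : SL(2, ℝ)) z))⁻¹ = _
      rw [hsinv g z hz]
    rw [tsum_congr h1, tsum_mul_right]
    have h2 : ∑' g : Γ, χ (SG.mb (g : SL(2, ℝ)) z) = s z := by rw [hs]
    rw [h2, mul_inv_cancel₀ (hspos z hz).ne']
  · have h1 : ∀ g h : Γ, ρ (SG.mb (g : SL(2, ℝ)) (SG.mb (h : SL(2, ℝ)) z)) =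
        ρ (SG.mb ((g * h : Γ) : SL(2, ℝ)) z) := by
      intro g h
      rw [Subgroup.coe_mul, SG.mb_mul _ _ hz]
    exact h1 g h

end Pool.Agent.H415.F3
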